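import Mathlib
import Pool.Agent.H17.KS

namespace Pool.Agent.Results.MP_eeb913_an.TwoStates

open MeasureTheory Filter Topology Set Pool.Agent.H17.KS
open scoped ENNReal

/-- the Henon map `(x, y) ↦ (P x - a y, x)` -/
noncomputable def henon (P : Polynomial ℂ) (a : ℂ) (z : ℂ × ℂ) : ℂ × ℂ :=
  (P.eval z.1 - a * z.2, z.1)

/-- Shannon entropy of the finite partition into the fibres of `ξ` -/
noncomputable def H {ι : Type} [Fintype ι] (ν : Measure (ℂ × ℂ)) (ξ : ℂ × ℂ → ι) : ℝ :=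
  ∑ i, Real.negMulLog (ν.real (ξ ⁻¹' {i}))

/-- Kolmogorov-Sinai entropy -/
noncomputable def ks (f : ℂ × ℂ → ℂ × ℂ) (ν : Measure (ℂ × ℂ)) : ℝ≥0∞ :=
  ⨆ (m : ℕ) (ξ : ℂ × ℂ → Fin m) (_ : Measurable ξ),
    limsup (fun n : ℕ => ENNReal.ofReal (H ν (fun z (i : Fin n) => ξ (f^[i] z)) / n)) atTop

def Invariant (f : ℂ × ℂ → ℂ × ℂ) (ν : Measure (ℂ × ℂ)) : Prop :=
  IsProbabilityMeasure ν ∧ MeasurePreserving f ν ν

def IsEquilibrium (f : ℂ × ℂ → ℂ × ℂ) (φ : ℂ × ℂ → ℝ) (ν : Measure (ℂ × ℂ)) : Prop :=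
  Invariant f ν ∧ ∀ ν', Invariant f ν' →
    (ks f ν' : EReal) + (∫ z, φ z ∂ν' : ℝ) ≤ (ks f ν : EReal) + (∫ z, φ z ∂ν : ℝ)

noncomputable def f (z : ℂ × ℂ) : ℂ × ℂ := ((3 * z.1 - z.1 ^ 3) / 4 + z.2 / 2, z.1)

lemma fc : Continuous f := by unfold f; fun_prop

variable {ν : Measure (ℂ × ℂ)}

lemma bdd (h : Invariant f ν) : ∀ᵐ z ∂ν, ∀ n, ‖f^[n] z‖ ≤ 3 := by
  obtain ⟨_, hf⟩ := h
  have h1 : ∀ z : ℂ × ℂ, 3 < ‖z.1‖ ∧ ‖z.2‖ ≤ ‖z.1‖ → ‖z.1‖ < ‖(f z).1‖ := fun z h => by
    have e : z.1 ^ 3 = 3 * z.1 + 2 * z.2 - 4 * (f z).1 := by simp only [f]; ring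
    have := norm_sub_le_of_le (norm_add_le (3 * z.1) (2 * z.2)) (le_refl ‖4 * (f z).1‖)
    rw [← e] at this
    simp only [norm_pow, norm_mul, Complex.norm_ofNat] at this
    nlinarith [mul_pos (sub_pos.2 h.1) (sub_pos.2 h.1), h.1, h.2]
  have h2 := lyap hf (g := fun z => if 3 < ‖z.1‖ ∧ ‖z.2‖ ≤ ‖z.1‖ then 1 - ‖z.1‖⁻¹ else 0)
    (Measurable.ite (by measurability) (by fun_prop) measurable_const) 1 (fun z => by
      split_ifs with h
      · have := inv_lt_one_of_one_lt₀ (show 1 < ‖z.1‖ by linarith)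
        rw [abs_of_pos (by linarith)]
        simp
      · simp) (.of_forall fun z => by
      by_cases h : 3 < ‖z.1‖ ∧ ‖z.2‖ ≤ ‖z.1‖
      · have := h1 z h
        rw [if_pos h, if_pos ⟨h.1.trans this, this.le⟩]
        gcongr
        linarith
      · rw [if_neg h]
        split_ifs with h
        · have := inv_lt_one_of_one_lt₀ (show 1 < ‖(f z).1‖ by linarith)
          linarith
        · rfl)
  have h3 : ∀ᵐ z ∂ν, ¬ (3 < ‖z.1‖ ∧ ‖z.2‖ ≤ ‖z.1‖) := by
    filter_upwards [h2] with z hz h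
    have := h1 z h
    rw [if_pos h, if_pos ⟨h.1.trans this, this.le⟩, sub_right_inj, inv_inj] at hz
    exact this.ne hz
  have h4 := hf.quasiMeasurePreserving.ae h3
  have h5 := lyap hf (g := fun z => (max ‖z.1‖ 3)⁻¹) (by fun_prop) 1 (fun z => by
    rw [abs_of_pos (by positivity)]
    exact inv_le_one_of_one_le₀ (le_max_of_le_right (by norm_num))) (by
    filter_upwards [h4] with z hz
    refine inv_anti₀ (by positivity) (max_le ?_ (le_max_right _ _))
    rw [not_and_or, not_lt, not_le] at hz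
    exact hz.elim le_max_of_le_right fun h => le_max_of_le_left h.le)
  have h6 : ∀ᵐ z ∂ν, ‖z.1‖ ≤ 3 := by
    filter_upwards [h4, h5] with z hz h
    rw [inv_inj] at h
    rw [not_and_or, not_lt, not_le] at hz
    by_contra hc
    rw [max_eq_left (not_le.1 hc).le] at h
    refine (max_lt ?_ (not_le.1 hc)).ne' h
    exact hz.elim (fun h => h.trans_lt (not_le.1 hc)) id
  have h7 : ∀ᵐ z ∂ν, ‖z‖ ≤ 3 := by
    rw [← hf.map_eq, ae_map_iff hf.measurable.aemeasurable (by measurability)]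
    filter_upwards [h6, hf.quasiMeasurePreserving.ae h6] with z h1 h2
    exact max_le h2 h1
  exact ae_all_iff.2 fun n => (hf.iterate n).quasiMeasurePreserving.ae h7

lemma sink (h : Invariant f ν) {σ : ℂ} (hσ : σ ^ 2 = 1) :
    ∀ᵐ z ∂ν, dist z (σ, σ) < 1 / 40 → z = (σ, σ) := by
  obtain ⟨_, hf⟩ := h
  let ρ : ℂ × ℂ → ℝ := fun z => ‖z.1 - σ‖ + 3 / 4 * ‖z.2 - σ‖
  have ρ0 : ∀ z, 0 ≤ ρ z := fun z => by positivity
  have n1 : ‖σ‖ = 1 := by
    have := congrArg norm hσ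
    rwa [norm_pow, norm_one, pow_eq_one_iff_of_nonneg (norm_nonneg _) two_ne_zero] at this
  have h1 : ∀ z, ρ z < 1 / 20 → ρ (f z) ≤ 4 / 5 * ρ z := fun z h => by
    have e : (f z).1 - σ = (z.2 - σ) / 2 - (3 * σ * (z.1 - σ) ^ 2 + (z.1 - σ) ^ 3) / 4 := by
      simp only [f]
      linear_combination (-3 * z.1 / 4 + σ / 2) * hσ
    have h2 := norm_sub_le ((z.2 - σ) / 2) ((3 * σ * (z.1 - σ) ^ 2 + (z.1 - σ) ^ 3) / 4)
    have h3 := norm_add_le (3 * σ * (z.1 - σ) ^ 2) ((z.1 - σ) ^ 3)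
    rw [← e] at h2
    simp only [norm_pow, norm_mul, norm_div, Complex.norm_ofNat, n1] at h2 h3
    simp only [ρ, show (f z).2 = z.1 from rfl] at h ⊢
    have a := norm_nonneg (z.1 - σ)
    have b := norm_nonneg (z.2 - σ)
    have c : ‖z.1 - σ‖ ≤ 1 / 20 := by linarith
    nlinarith [mul_le_mul_of_nonneg_left c a, mul_le_mul_of_nonneg_left c (mul_nonneg a a)]
  have h2 := lyap hf (g := fun z => max 0 (1 / 20 - ρ z)) (by fun_prop) 1 (fun z => by
    rw [abs_of_nonneg (le_max_left _ _)]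
    exact max_le zero_le_one (by linarith [ρ0 z])) (.of_forall fun z => by
    refine max_le (le_max_left _ _) ?_
    by_cases h : ρ z < 1 / 20
    · exact le_max_of_le_right (by linarith [h1 z h, ρ0 z])
    · exact le_max_of_le_left (by linarith))
  filter_upwards [h2] with z hz h
  rw [Prod.dist_eq, max_lt_iff, dist_eq_norm, dist_eq_norm] at h
  have h3 : ρ z < 1 / 20 := by simp only [ρ]; linarith [h.1, h.2]
  have h4 := h1 z h3
  rw [max_eq_right (by linarith), max_eq_right (by linarith [ρ0 z])] at hz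
  have h5 : ρ z ≤ 0 := by linarith
  have a := norm_nonneg (z.1 - σ)
  have b := norm_nonneg (z.2 - σ)
  simp only [ρ] at h5
  exact Prod.ext (sub_eq_zero.1 (norm_le_zero_iff.1 (by linarith)))
    (sub_eq_zero.1 (norm_le_zero_iff.1 (by linarith)))

lemma lip {z w : ℂ × ℂ} (hz : ‖z‖ ≤ 3) (hw : ‖w‖ ≤ 3) : dist (f z) (f w) ≤ 8 * dist z w := by
  have a : ‖z.1 - w.1‖ ≤ dist z w := by rw [← dist_eq_norm]; exact le_max_left _ _
  have b : ‖z.2 - w.2‖ ≤ dist z w := by rw [← dist_eq_norm]; exact le_max_right _ _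
  have c := (norm_fst_le z).trans hz
  have d := (norm_fst_le w).trans hw
  have e : (f z).1 - (f w).1 = (z.1 - w.1) * (3 - (z.1 * z.1 + z.1 * w.1 + w.1 * w.1)) / 4 +
      (z.2 - w.2) / 2 := by simp only [f]; ring
  have h1 : ‖3 - (z.1 * z.1 + z.1 * w.1 + w.1 * w.1)‖ ≤ 3 + (3 * 3 + 3 * 3 + 3 * 3) :=
    norm_sub_le_of_le (by simp) (norm_add_le_of_le (norm_add_le_of_le (norm_mul_le_of_le c c)
      (norm_mul_le_of_le c d)) (norm_mul_le_of_le d d))
  generalize dist z w = t at a b ⊢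
  rw [Prod.dist_eq, max_le_iff, dist_eq_norm, dist_eq_norm, e]
  refine ⟨(norm_add_le _ _).trans ?_, by simp only [f]; linarith [norm_nonneg (z.1 - w.1)]⟩
  simp only [norm_div, Complex.norm_ofNat]
  linarith [norm_mul_le_of_le a h1]

def co (z : ℂ × ℂ) : Fin 4 → ℝ := ![z.1.re, z.1.im, z.2.re, z.2.im]

lemma co1 (z w : ℂ × ℂ) (j : Fin 4) : |co z j - co w j| ≤ dist z w := by
  have a : ‖z.1 - w.1‖ ≤ dist z w := by rw [← dist_eq_norm]; exact le_max_left _ _
  have b : ‖z.2 - w.2‖ ≤ dist z w := by rw [← dist_eq_norm]; exact le_max_right _ _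
  fin_cases j
  exacts [(Complex.abs_re_le_norm (z.1 - w.1)).trans a, (Complex.abs_im_le_norm (z.1 - w.1)).trans a,
    (Complex.abs_re_le_norm (z.2 - w.2)).trans b, (Complex.abs_im_le_norm (z.2 - w.2)).trans b]

lemma co2 {z w : ℂ × ℂ} {t : ℝ} (h : ∀ j, |co z j - co w j| ≤ t) : dist z w ≤ 2 * t := by
  rw [Prod.dist_eq, max_le_iff, dist_eq_norm, dist_eq_norm, two_mul]
  exact ⟨(Complex.norm_le_abs_re_add_abs_im _).trans (add_le_add (h 0) (h 1)),
    (Complex.norm_le_abs_re_add_abs_im _).trans (add_le_add (h 2) (h 3))⟩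

lemma ks_le (h : Invariant f ν) (p q : ℂ × ℂ) :
    ks f ν ≤ ENNReal.ofReal (35 ^ 4 * ν.real {p, q}ᶜ) := by
  classical
  have hG := bdd h
  obtain ⟨_, hf⟩ := h
  refine iSup_le fun m => iSup_le fun ξ => iSup_le fun hξ =>
    ENNReal.le_of_forall_pos_le_add fun ε hε _ => ?_
  have hε' : (0 : ℝ) < ε / 3 := by positivity
  have h1 : Real.exp (-(ε / 3)) < 1 := Real.exp_lt_one_iff.2 (by linarith)
  obtain ⟨b, hb, hb0⟩ := ((((Real.tendsto_exp_neg_atTop_nhds_zero.comp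
    (tendsto_atTop_add_const_left _ (ε / 3 : ℝ) tendsto_id)).const_mul (m : ℝ)).const_add
    (Real.exp (-(ε / 3)))).eventually_le_const (by rwa [mul_zero, add_zero]) |>.and
    (eventually_ge_atTop 0)).exists
  obtain ⟨K, hK, hK1, η, hη, hK2⟩ := lusin ν hξ (δ := ε / 3 / (b * m + 1)) (by positivity)
  have h2 : b * ν.real Kᶜ ≤ ε / 3 := by
    refine (mul_le_mul_of_nonneg_left hK1 hb0).trans ?_
    rw [← mul_assoc, ← mul_div_assoc, div_le_iff₀ (by positivity)]
    nlinarith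
  obtain ⟨k, hk⟩ := exists_nat_gt (2 / η)
  have k0 : (0 : ℝ) < k := lt_trans (by positivity) hk
  let Q : ℂ × ℂ → Fin 4 → ℤ := fun z j => ⌊k * co z j⌋
  have Q1 : ∀ z w, Q z = Q w → dist z w ≤ 2 * (k : ℝ)⁻¹ := fun z w h => co2 fun j => by
    have := Int.abs_sub_lt_one_of_floor_eq_floor (congrFun h j)
    rw [← mul_sub, abs_mul, abs_of_pos k0] at this
    rw [← one_div, le_div_iff₀' k0]
    exact this.le
  have Q2 : ∀ z w (L : ℕ), dist z w ≤ L * (k : ℝ)⁻¹ →
      Q z ∈ Fintype.piFinset fun j => Finset.Icc (Q w j - (L + 1)) (Q w j + (L + 1)) := by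
    intro z w L h
    refine Fintype.mem_piFinset.2 fun j => Finset.mem_Icc.2 ?_
    have := mul_le_mul_of_nonneg_left ((co1 z w j).trans h) k0.le
    rw [mul_left_comm, mul_inv_cancel₀ k0.ne', mul_one, ← abs_of_pos k0, ← abs_mul,
      mul_sub, abs_le] at this
    have a := Int.floor_le (k * co z j)
    have b := Int.floor_le (k * co w j)
    have c := Int.lt_floor_add_one (k * co z j)
    have d := Int.lt_floor_add_one (k * co w j)
    constructor <;> rw [← Int.cast_le (R := ℝ)] <;> simp only [Q] <;> push_cast <;> linarith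
  let G := {z | ∀ n, ‖f^[n] z‖ ≤ 3}
  let r : (Fin 4 → ℤ) → ℂ × ℂ := fun v => Classical.epsilon fun w => w ∈ G ∧ Q w = v
  let g : (Fin 4 → ℤ) → Fin m := fun v => ξ (Classical.epsilon fun w => w ∈ K ∧ Q w = v)
  have hn := names (f := f) G (fun z hz n => hz (n + 1)) Q _ (fun z hz => Q2 z 0 (3 * k) (by
      rw [dist_zero_right, Nat.cast_mul, mul_assoc, mul_inv_cancel₀ k0.ne', mul_one]
      exact hz 0)) (fun v => Fintype.piFinset fun j => Finset.Icc (Q (f (r v)) j - (16 + 1 : ℕ))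
      (Q (f (r v)) j + (16 + 1 : ℕ))) (35 ^ 4) (fun v => by
      simp only [Fintype.card_piFinset, Int.card_Icc]
      refine (Finset.prod_le_pow_card _ _ 35 fun j _ => by omega).trans (by simp)) fun z hz => by
      have := Classical.epsilon_spec (p := fun w => w ∈ G ∧ Q w = Q z) ⟨z, hz, rfl⟩
      refine Q2 _ _ 16 ((lip (z := z) (w := r (Q z)) (hz 0) (this.1 0)).trans ?_)
      have : dist z (r (Q z)) ≤ _ := Q1 _ _ this.2.symm
      push_cast
      linarith
  generalize Finset.card (Fintype.piFinset (α := Fin 4) (δ := fun _ => ℤ) _) = c at hn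
  rw [← ENNReal.ofReal_coe_nnreal, ← ENNReal.ofReal_add (by positivity) ε.coe_nonneg]
  refine limsup_le_of_le (h := ?_)
  filter_upwards [eventually_ne_atTop 0, (tendsto_const_div_atTop_nhds_zero_nat
    (Real.log 3 + c)).eventually_le_const hε'] with n hn0 hn1
  obtain ⟨n, rfl⟩ := Nat.exists_eq_succ_of_ne_zero hn0
  obtain ⟨T, h3, h4⟩ := hn n
  have := block hf hξ p q G hG (fun z => g (Q z)) K hK (fun z hz => by
    have := Classical.epsilon_spec (p := fun w => w ∈ K ∧ Q w = Q z) ⟨z, hz, rfl⟩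
    refine hK2 _ this.1 _ hz ((Q1 _ _ this.2).trans_lt ?_)
    rwa [← div_eq_mul_inv, div_lt_comm₀ k0 hη]) (T.image fun w i => g (w i))
    (fun z hz => Finset.mem_image_of_mem _ (h4 z hz)) (c + n * 35 ^ 4) (ε / 3) b (by
      rw [Real.exp_add, Real.exp_nat_mul]
      refine (Nat.cast_le.2 (Finset.card_image_le.trans h3)).trans ?_
      push_cast
      gcongr <;> exact le_trans (by norm_num) (Real.add_one_le_exp _)) hε'.le hb0 hb
  refine ENNReal.ofReal_le_ofReal ?_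
  have h5 : ν.real {p, q}ᶜ ≤ 1 := measureReal_le_one
  have h6 : 0 ≤ ν.real {p, q}ᶜ := measureReal_nonneg
  rw [div_le_iff₀ (by positivity)] at hn1 ⊢
  refine this.trans ?_
  push_cast at hn1 ⊢
  nlinarith [mul_le_mul_of_nonneg_left h2 (show (0 : ℝ) ≤ n + 1 by positivity),
    mul_le_mul_of_nonneg_left h5 (show (0 : ℝ) ≤ c by positivity)]

theorem result : ∃ (P : Polynomial ℂ) (a : ℂ), 2 ≤ P.natDegree ∧ a ≠ 0 ∧
    ∃ φ : ℂ × ℂ → ℝ, (∃ C, LipschitzWith C φ) ∧ (∃ M, ∀ z, |φ z| ≤ M) ∧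
      ∃ ν₁ ν₂, ν₁ ≠ ν₂ ∧ IsEquilibrium (henon P a) φ ν₁ ∧ IsEquilibrium (henon P a) φ ν₂ := by
  let P : Polynomial ℂ := Polynomial.C (-1 / 4) * Polynomial.X ^ 3 + Polynomial.C (3 / 4) * .X
  have e : henon P (-1 / 2) = f := by
    ext z <;> simp [henon, f, P]
    ring
  let S : Set (ℂ × ℂ) := {(1, 1), (-1, -1)}
  let φ : ℂ × ℂ → ℝ := fun z => max (35 ^ 4 - 40 * 35 ^ 4 * Metric.infDist z S) 0
  have φ1 : ∀ z, |φ z| ≤ 35 ^ 4 := fun z => by
    rw [abs_of_nonneg (le_max_right _ _)]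
    exact max_le (sub_le_self _ (mul_nonneg (by norm_num) Metric.infDist_nonneg)) (by norm_num)
  have φ2 : LipschitzWith (40 * 35 ^ 4) φ := (LipschitzWith.of_dist_le_mul fun z w => by
    rw [dist_sub_left, Real.dist_eq, ← mul_sub, abs_mul, ← Real.dist_eq]
    have := (Metric.lipschitz_infDist_pt S).dist_le_mul z w
    norm_num at this ⊢
    exact this).max_const 0
  have key : ∀ p ∈ S, IsEquilibrium f φ (Measure.dirac p) := fun p hp => by
    have fp : f p = p := by rcases hp with rfl | rfl <;> norm_num [f]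
    refine ⟨⟨inferInstance, fc.measurable, by rw [Measure.map_dirac' fc.measurable, fp]⟩,
      fun ν hν => ?_⟩
    have := hν.1
    have hS : MeasurableSet S := (toFinite _).measurableSet
    have h1 : ∫ z, φ z ∂ν ≤ ∫ z, S.indicator (fun _ => 35 ^ 4) z ∂ν := by
      refine integral_mono_ae (Integrable.of_bound φ2.continuous.aestronglyMeasurable _
        (.of_forall φ1)) ((integrable_const _).indicator hS) ?_
      filter_upwards [sink hν (σ := 1) (by norm_num), sink hν (σ := -1) (by norm_num)] with z a b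
      by_cases hz : z ∈ S
      · rw [indicator_of_mem hz]
        exact (le_abs_self _).trans (φ1 z)
      · rw [indicator_of_notMem hz]
        have : 1 / 40 ≤ Metric.infDist z S := (Metric.le_infDist ⟨p, hp⟩).2 (by
          rintro _ (rfl | rfl)
          exacts [not_lt.1 fun h => hz (Or.inl (a h)), not_lt.1 fun h => hz (Or.inr (b h))])
        exact max_le (by linarith) le_rfl
    rw [integral_indicator hS, setIntegral_const, smul_eq_mul] at h1
    have h2 := probReal_add_probReal_compl (μ := ν) hS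
    have h3 : ∫ z, φ z ∂(Measure.dirac p) = 35 ^ 4 := by
      simp [φ, Metric.infDist_zero_of_mem hp]
    refine le_trans ?_ (le_add_of_nonneg_left (EReal.coe_ennreal_nonneg _))
    refine (add_le_add_left (EReal.coe_ennreal_le_coe_ennreal_iff.2 (ks_le hν (1, 1) (-1, -1)))
      _).trans ?_
    rw [EReal.coe_ennreal_ofReal, max_eq_left (by positivity), ← EReal.coe_add,
      EReal.coe_le_coe_iff, h3]
    linarith
  refine ⟨P, -1 / 2, ?_, by norm_num, φ, ⟨_, φ2⟩, ⟨_, φ1⟩, .dirac (1, 1), .dirac (-1, -1),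
    fun h => ?_, e ▸ key _ (Or.inl rfl), e ▸ key _ (Or.inr rfl)⟩
  · refine le_trans (by norm_num) (Polynomial.le_natDegree_of_ne_zero (n := 3) ?_)
    simp [P]
  · have := dirac_eq_dirac_iff.1 h
    norm_num at this

end Pool.Agent.Results.MP_eeb913_an.TwoStates
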